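import Pool.Agent.DK10.Main

/-!
# MP_6e0ca8_nt, a lower bound for `∑ d_κ(n) d_3(n+1)` with a constant close to the conjectured one

For every real `κ ≥ 2` (in particular for `2 < κ < 3`) and every
`c < (3 + κ 2^(1-κ)) / 4` one has `S_κ(x) ≥ c M_κ(x)` for all large `x`, where
`M_κ(x) = G_κ / (2 Γ(κ)) · x (log x)^(κ+1)` is the conjectured main term.  For `2 ≤ κ ≤ 3` the constant
`(3 + κ 2^(1-κ)) / 4` is at least `15/16`.
-/

namespace Pool.Agent.Results.MP_6e0ca8_nt.LowerConstant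

open Finset Filter Topology

/-- The generalised divisor function: multiplicative, with value
`κ(κ+1)⋯(κ+a-1)/a!` at the prime power `p^a`. -/
noncomputable def dKappa (κ : ℝ) (n : ℕ) : ℝ :=
  ∏ p ∈ n.primeFactors, ∏ i ∈ range (n.factorization p), (κ + (i : ℝ)) / ((i : ℝ) + 1)

/-- `d_3(n)`: the number of ordered triples of positive integers with product `n` (for `n ≥ 1`). -/
noncomputable def dThree (n : ℕ) : ℝ := ((Nat.finMulAntidiag 3 n).card : ℝ)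

/-- `S_κ(x) = ∑_{n ≤ x} d_κ(n) d_3(n+1)`. -/
noncomputable def S (κ x : ℝ) : ℝ := ∑ n ∈ Icc 1 ⌊x⌋₊, dKappa κ n * dThree (n + 1)

/-- The factor at the prime `p` of the constant `G_κ`. -/
noncomputable def gFactor (κ : ℝ) (p : Nat.Primes) : ℝ :=
  1 - (1 - (1 - 1 / ((p : ℕ) : ℝ)) ^ (κ - 1)) * (1 - (1 - 1 / ((p : ℕ) : ℝ)) ^ 2)

/-- The constant `G_κ`, an infinite product over the primes. -/
noncomputable def G (κ : ℝ) : ℝ := ∏' p : Nat.Primes, gFactor κ p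

/-- The conjectured main term. -/
noncomputable def M (κ x : ℝ) : ℝ :=
  G κ / (2 * Real.Gamma κ) * x * (Real.log x) ^ (κ + 1)

theorem const_bound {κ : ℝ} (h2 : 2 ≤ κ) (h3 : κ ≤ 3) :
    (15 : ℝ) / 16 ≤ (3 + κ * 2 ^ (1 - κ)) / 4 := by
  have h1 : (1 + 1 : ℝ) ^ (κ - 2) ≤ 1 + (κ - 2) * 1 :=
    rpow_one_add_le_one_add_mul_self (by norm_num) (by linarith) (by linarith)
  have hpos : (0 : ℝ) < 2 ^ (κ - 1) := Real.rpow_pos_of_pos (by norm_num) _
  have hle : (2 : ℝ) ^ (κ - 1) ≤ 4 / 3 * κ := by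
    have : (2 : ℝ) ^ (κ - 1) = 2 * 2 ^ (κ - 2) := by
      rw [show κ - 1 = 1 + (κ - 2) by ring, Real.rpow_add (by norm_num), Real.rpow_one]
    rw [this]
    norm_num at h1
    linarith
  have hinv : (2 : ℝ) ^ (1 - κ) = (2 ^ (κ - 1))⁻¹ := by
    rw [← Real.rpow_neg (by norm_num)]
    congr 1
    ring
  have : (3 : ℝ) / 4 ≤ κ * 2 ^ (1 - κ) := by
    rw [hinv, ← div_eq_mul_inv, le_div_iff₀ hpos]
    linarith
  linarith

/-- **Main result.**  Let `κ ≥ 2`.  The product defining `G_κ` converges and is positive; for every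
`c < (3 + κ 2^(1-κ)) / 4` we have `c · M_κ(x) ≤ S_κ(x)` for all sufficiently large `x`; and if
`κ ≤ 3`, then `(3 + κ 2^(1-κ)) / 4 ≥ 15/16`. -/
theorem result (κ : ℝ) (hκ : 2 ≤ κ) :
    Multipliable (gFactor κ) ∧ 0 < G κ ∧
      (∀ c : ℝ, c < (3 + κ * 2 ^ (1 - κ)) / 4 → ∀ᶠ x : ℝ in atTop, c * M κ x ≤ S κ x) ∧
      (κ ≤ 3 → (15 : ℝ) / 16 ≤ (3 + κ * 2 ^ (1 - κ)) / 4) := by
  refine ⟨Pool.Agent.DK10.GG_multipliable hκ, Pool.Agent.DK10.GG_pos hκ, ?_,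
    fun h => const_bound hκ h⟩
  intro c hc
  exact Pool.Agent.DK10.main hκ hc

end Pool.Agent.Results.MP_6e0ca8_nt.LowerConstant
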